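import Pool.Agent.Helper66.NI.Stmts

open MeasureTheory Filter Topology
open scoped ENNReal

namespace Pool.Agent.Helper66.NI

section
variable {Ω : Type} [MeasurableSpace Ω] {μ : Measure Ω}

theorem kd_coe_sum {ι : Type} (s : Finset ι) (F : ι → Lp ℝ 4 μ) :
    ((∑ i ∈ s, F i : Lp ℝ 4 μ) : Ω → ℝ) =ᵐ[μ] fun x => ∑ i ∈ s, (F i : Ω → ℝ) x := by
  classical
  induction s using Finset.induction_on with
  | empty =>
    simp only [Finset.sum_empty]
    exact Lp.coeFn_zero _ _ _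
  | insert a s ha ih =>
    rw [Finset.sum_insert ha]
    filter_upwards [Lp.coeFn_add (F a) (∑ i ∈ s, F i), ih] with x hx hx2
    rw [hx, Pi.add_apply, hx2, Finset.sum_insert ha]

open Classical in
/-- the two-valued rearrangement -/
noncomputable def kd_F (g : SimpleFunc Ω (ℝ × ℝ)) (B : ℝ × ℝ → Set Ω) (a b : ℝ × ℝ → ℝ)
    (ω : Ω) : ℝ := if ω ∈ B (g ω) then a (g ω) else b (g ω)

theorem kd_pw (g : SimpleFunc Ω (ℝ × ℝ)) (B : ℝ × ℝ → Set Ω) (hBA : ∀ p, B p ⊆ g ⁻¹' {p})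
    (a b : ℝ × ℝ → ℝ) (ψ : Ω → ℝ) (ω : Ω) :
    kd_F g B a b ω * ψ ω
      = ∑ p ∈ g.range, (a p * (B p).indicator ψ ω
          + b p * ((g ⁻¹' {p}).indicator ψ ω - (B p).indicator ψ ω)) := by
  rw [Finset.sum_eq_single (g ω)]
  · have h1 : ω ∈ g ⁻¹' {g ω} := rfl
    rw [Set.indicator_of_mem h1]
    unfold kd_F
    split_ifs with h
    · rw [Set.indicator_of_mem h]
      ring
    · rw [Set.indicator_of_notMem h]
      ring
  · intro p _ hp
    have h1 : ω ∉ g ⁻¹' {p} := fun h => hp (by simpa using h.symm)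
    have h2 : ω ∉ B p := fun h => h1 (hBA p h)
    rw [Set.indicator_of_notMem h1, Set.indicator_of_notMem h2]
    ring
  · intro h
    exact absurd (SimpleFunc.mem_range_self g ω) h

theorem kd_int (g : SimpleFunc Ω (ℝ × ℝ)) (B : ℝ × ℝ → Set Ω) (hBA : ∀ p, B p ⊆ g ⁻¹' {p})
    (hB : ∀ p, MeasurableSet (B p)) (a b : ℝ × ℝ → ℝ) (ψ : Ω → ℝ) (hψ : Integrable ψ μ) :
    (∫ ω, kd_F g B a b ω * ψ ω ∂μ)
      = ∑ p ∈ g.range, (a p * (∫ ω in B p, ψ ω ∂μ)
          + b p * ((∫ ω in g ⁻¹' {p}, ψ ω ∂μ) - ∫ ω in B p, ψ ω ∂μ)) := by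
  have hI1 : ∀ p, Integrable ((B p).indicator ψ) μ := fun p => hψ.indicator (hB p)
  have hI2 : ∀ p, Integrable ((g ⁻¹' {p}).indicator ψ) μ :=
    fun p => hψ.indicator (g.measurableSet_fiber p)
  rw [integral_congr_ae (Eventually.of_forall fun ω => kd_pw g B hBA a b ψ ω)]
  rw [integral_finsetSum]
  · refine Finset.sum_congr rfl fun p _ => ?_
    have hI3 : Integrable (fun ω => (g ⁻¹' {p}).indicator ψ ω - (B p).indicator ψ ω) μ :=
      (hI2 p).sub (hI1 p)
    rw [integral_add ((hI1 p).const_mul _) (hI3.const_mul _),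
      integral_const_mul, integral_const_mul, integral_sub (hI2 p) (hI1 p),
      integral_indicator (hB p), integral_indicator (g.measurableSet_fiber p)]
  · intro p _
    exact ((hI1 p).const_mul _).add (((hI2 p).sub (hI1 p)).const_mul _)

theorem kd_ind [IsFiniteMeasure μ] {A : Set Ω} (hA : MeasurableSet A) :
    (ind μ hA : Ω → ℝ) =ᵐ[μ] A.indicator (fun _ => (1 : ℝ)) := indicatorConstLp_coeFn

/-- the rearrangement as an element of `L_4` -/
noncomputable def kd_f [IsFiniteMeasure μ] (g : SimpleFunc Ω (ℝ × ℝ)) (B : ℝ × ℝ → Set Ω)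
    (hB : ∀ p, MeasurableSet (B p)) (a b : ℝ × ℝ → ℝ) : Lp ℝ 4 μ :=
  ∑ p ∈ g.range, (a p • ind μ (hB p)
    + b p • (ind μ (g.measurableSet_fiber p) - ind μ (hB p)))

theorem kd_f_coe [IsFiniteMeasure μ] (g : SimpleFunc Ω (ℝ × ℝ)) (B : ℝ × ℝ → Set Ω)
    (hBA : ∀ p, B p ⊆ g ⁻¹' {p}) (hB : ∀ p, MeasurableSet (B p)) (a b : ℝ × ℝ → ℝ) :
    (kd_f (μ := μ) g B hB a b : Ω → ℝ) =ᵐ[μ] kd_F g B a b := by
  have h1 := kd_coe_sum (μ := μ) g.range (fun p => a p • ind μ (hB p)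
    + b p • (ind μ (g.measurableSet_fiber p) - ind μ (hB p)))
  have h2 : ∀ p ∈ g.range, ((a p • ind μ (hB p)
      + b p • (ind μ (g.measurableSet_fiber p) - ind μ (hB p)) : Lp ℝ 4 μ) : Ω → ℝ) =ᵐ[μ]
      fun ω => a p * (B p).indicator (fun _ => (1 : ℝ)) ω
          + b p * ((g ⁻¹' {p}).indicator (fun _ => (1 : ℝ)) ω
            - (B p).indicator (fun _ => (1 : ℝ)) ω) := by
    intro p _
    filter_upwards [Lp.coeFn_add (a p • ind μ (hB p))
      (b p • (ind μ (g.measurableSet_fiber p) - ind μ (hB p))),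
      Lp.coeFn_smul (a p) (ind μ (hB p)),
      Lp.coeFn_smul (b p) (ind μ (g.measurableSet_fiber p) - ind μ (hB p)),
      Lp.coeFn_sub (ind μ (g.measurableSet_fiber p)) (ind μ (hB p)),
      kd_ind (μ := μ) (hB p), kd_ind (μ := μ) (g.measurableSet_fiber p)] with ω e1 e2 e3 e4 e5 e6
    rw [e1, Pi.add_apply, e2, e3, Pi.smul_apply, Pi.smul_apply, e4, Pi.sub_apply, e5, e6]
    rfl
  have h3 := (Finset.eventually_all g.range).mpr h2
  filter_upwards [h1, h3] with ω hω1 hω3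
  unfold kd_f
  rw [hω1, Finset.sum_congr rfl hω3]
  have := kd_pw g B hBA a b (fun _ => (1 : ℝ)) ω
  rw [mul_one] at this
  exact this.symm

theorem kd_F_same (g : SimpleFunc Ω (ℝ × ℝ)) (B : ℝ × ℝ → Set Ω) (a : ℝ × ℝ → ℝ) (ω : Ω) :
    kd_F g B a a ω = a (g ω) := by
  unfold kd_F
  split_ifs <;> rfl

theorem kd_toL [IsFiniteMeasure μ] (g : SimpleFunc Ω (ℝ × ℝ)) (m : ℝ × ℝ → ℝ) :
    toL (μ := μ) (g.map m) = ∑ p ∈ g.range, m p • ind μ (g.measurableSet_fiber p) := by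
  have hBA : ∀ p : ℝ × ℝ, (∅ : Set Ω) ⊆ g ⁻¹' {p} := fun p => Set.empty_subset _
  have h1 := kd_f_coe (μ := μ) g (fun _ => ∅) hBA (fun _ => MeasurableSet.empty) m m
  have h2 : kd_f (μ := μ) g (fun _ => ∅) (fun _ => MeasurableSet.empty) m m
      = ∑ p ∈ g.range, m p • ind μ (g.measurableSet_fiber p) := by
    unfold kd_f
    refine Finset.sum_congr rfl fun p _ => ?_
    rw [smul_sub]
    abel
  rw [← h2]
  apply Lp.ext
  have h3 : (toL (μ := μ) (g.map m) : Ω → ℝ) =ᵐ[μ] g.map m :=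
    MemLp.coeFn_toLp _
  filter_upwards [h1, h3] with ω e1 e3
  rw [e1, e3, kd_F_same]
  rfl

end

theorem st_KD (hS : ST_SPL2) (hB0 : ST_BAS) : ST_KD := by
  intro Ω _ μ _ T hT V hV g u v n k hk
  obtain ⟨hB1, hB2, hB3⟩ := hB0 Ω μ
  set w : ℝ × ℝ → ℝ := fun p => (k p : ℝ) / 2 ^ n with hw
  set m : ℝ × ℝ → ℝ := fun p => w p * u p + (1 - w p) * v p with hm
  set H : ℝ × ℝ → ℝ := fun p => w p * u p ^ 3 + (1 - w p) * v p ^ 3 with hH
  set C : ℝ × ℝ → ℝ := fun p => w p * u p ^ 4 + (1 - w p) * v p ^ 4 with hC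
  set Tm : Lp ℝ 4 μ := T (toL (g.map m)) with hTm
  set φ : Ω → ℝ := (Tm : Ω → ℝ) with hφ
  have hφi : Integrable φ μ := (Lp.memLp Tm).integrable (by norm_num)
  change |∫ ω, H (g ω) * φ ω ∂μ| ≤ V * ∫ ω, C (g ω) ∂μ
  set C0 : ℝ := ∫ ω, C (g ω) ∂μ with hC0
  set D : ℝ := (1 + C0) * (∑ p ∈ g.range, |u p - v p|) + ∑ p ∈ g.range, |u p ^ 3 - v p ^ 3|
    with hD
  have h1i : Integrable (fun _ : Ω => (1 : ℝ)) μ := integrable_const 1
  have hw0 : ∀ p, 0 ≤ w p := fun p => by positivity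
  have hw1 : ∀ p, w p ≤ 1 := by
    intro p
    rw [hw]
    simp only
    rw [div_le_one (by positivity)]
    exact_mod_cast hk p
  have hC0n : 0 ≤ C0 := by
    apply integral_nonneg
    intro ω
    simp only [hC, Pi.zero_apply]
    have := hw0 (g ω)
    have := hw1 (g ω)
    have h1 : 0 ≤ u (g ω) ^ 4 := by positivity
    have h2 : 0 ≤ v (g ω) ^ 4 := by positivity
    exact add_nonneg (mul_nonneg (hw0 _) h1) (mul_nonneg (by linarith) h2)
  have hD0 : 0 ≤ D := by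
    rw [hD]
    have : 0 ≤ ∑ p ∈ g.range, |u p - v p| := Finset.sum_nonneg fun p _ => abs_nonneg _
    have : 0 ≤ ∑ p ∈ g.range, |u p ^ 3 - v p ^ 3| := Finset.sum_nonneg fun p _ => abs_nonneg _
    positivity
  -- the estimate with ε
  have key : ∀ ε : ℝ, 0 < ε → |∫ ω, H (g ω) * φ ω ∂μ| ≤ V * C0 + D * ε := by
    intro ε hε
    have hex := fun p => hS Ω μ T hT φ hφi n (k p) (hk p) (g ⁻¹' {p})
      (g.measurableSet_fiber p) ε hε
    choose B hBm hBA hBμ hBT hBφ using hex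
    have hint := fun a b ψ hψ => kd_int (μ := μ) g B hBA hBm a b ψ hψ
    set f : Lp ℝ 4 μ := kd_f g B hBm u v with hf
    have hfc : (f : Ω → ℝ) =ᵐ[μ] kd_F g B u v := kd_f_coe g B hBA hBm u v
    have hFpow : ∀ (j : ℕ) (ω : Ω), (kd_F g B u v ω) ^ j
        = kd_F g B (fun p => u p ^ j) (fun p => v p ^ j) ω := by
      intro j ω
      unfold kd_F
      split_ifs <;> rfl
    -- integral of a function of g
    have hsame : ∀ (a : ℝ × ℝ → ℝ) (ψ : Ω → ℝ), Integrable ψ μ →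
        (∫ ω, a (g ω) * ψ ω ∂μ) = ∑ p ∈ g.range, a p * ∫ ω in g ⁻¹' {p}, ψ ω ∂μ := by
      intro a ψ hψ
      have h1 := hint a a ψ hψ
      have h2 : (fun ω => kd_F g B a a ω * ψ ω) = fun ω => a (g ω) * ψ ω := by
        funext ω
        rw [kd_F_same]
      rw [h2] at h1
      rw [h1]
      refine Finset.sum_congr rfl fun p _ => ?_
      ring
    -- the norm of f
    have hnf : ‖f‖ ^ 4 = C0 := by
      have e1 : (∫ ω, (f ω) ^ 4 ∂μ) = ∫ ω, kd_F g B (fun p => u p ^ 4) (fun p => v p ^ 4) ω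
          * (fun _ => (1 : ℝ)) ω ∂μ := by
        apply integral_congr_ae
        filter_upwards [hfc] with ω hω
        rw [hω, hFpow, mul_one]
      rw [hB2 f, e1, hint _ _ _ h1i]
      have e2 := hsame C (fun _ => (1 : ℝ)) h1i
      simp only [mul_one] at e2
      rw [hC0, e2]
      refine Finset.sum_congr rfl fun p _ => ?_
      rw [setIntegral_const, setIntegral_const, smul_eq_mul, smul_eq_mul, mul_one, mul_one,
        hBμ p]
      simp only [hC, hw]
      ring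
    -- T f - T m
    have hTf : T f - Tm = ∑ p ∈ g.range, (u p - v p) •
        (T (ind μ (hBm p)) - w p • T (ind μ (g.measurableSet_fiber p))) := by
      rw [hTm, kd_toL, hf]
      unfold kd_f
      rw [map_sum, map_sum, ← Finset.sum_sub_distrib]
      refine Finset.sum_congr rfl fun p _ => ?_
      rw [map_add, map_smul, map_smul, map_smul, map_sub]
      simp only [hm]
      module
    have hTfn : ‖T f - Tm‖ ≤ (∑ p ∈ g.range, |u p - v p|) * ε := by
      rw [hTf, Finset.sum_mul]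
      refine norm_sum_le_of_le _ fun p _ => ?_
      rw [norm_smul, Real.norm_eq_abs]
      exact mul_le_mul_of_nonneg_left (hBT p).le (abs_nonneg _)
    -- cub f (T m)
    have hcm : |cub f Tm - ∫ ω, H (g ω) * φ ω ∂μ| ≤ (∑ p ∈ g.range, |u p ^ 3 - v p ^ 3|) * ε := by
      have e1 : cub f Tm = ∫ ω, kd_F g B (fun p => u p ^ 3) (fun p => v p ^ 3) ω
          * φ ω ∂μ := by
        unfold cub
        apply integral_congr_ae
        filter_upwards [hfc] with ω hω
        rw [hω, hFpow]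
      rw [e1, hint _ _ _ hφi, hsame H φ hφi, ← Finset.sum_sub_distrib, Finset.sum_mul]
      refine (Finset.abs_sum_le_sum_abs _ _).trans (Finset.sum_le_sum fun p _ => ?_)
      have e2 : u p ^ 3 * (∫ ω in B p, φ ω ∂μ)
          + v p ^ 3 * ((∫ ω in g ⁻¹' {p}, φ ω ∂μ) - ∫ ω in B p, φ ω ∂μ)
          - H p * (∫ ω in g ⁻¹' {p}, φ ω ∂μ)
          = (u p ^ 3 - v p ^ 3) * ((∫ ω in B p, φ ω ∂μ)
            - (k p : ℝ) / 2 ^ n * ∫ ω in g ⁻¹' {p}, φ ω ∂μ) := by
        simp only [hH, hw]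
        ring
      rw [e2, abs_mul]
      exact mul_le_mul_of_nonneg_left (hBφ p).le (abs_nonneg _)
    -- linearity of cub
    have hI : ∀ a b : Lp ℝ 4 μ, Integrable (fun ω => (a ω) ^ 3 * b ω) μ := by
      intro a b
      refine (hB1 a a a b).congr (Eventually.of_forall fun x => ?_)
      simp only
      ring
    have hlin : cub f (T f) = cub f Tm + cub f (T f - Tm) := by
      unfold cub
      rw [← integral_add (hI f Tm) (hI f (T f - Tm))]
      apply integral_congr_ae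
      filter_upwards [Lp.coeFn_sub (T f) Tm] with ω hω
      rw [hω, Pi.sub_apply]
      ring
    have hhol : |cub f (T f - Tm)| ≤ ‖f‖ ^ 3 * ‖T f - Tm‖ := by
      unfold cub
      refine abs_integral_le_integral_abs.trans ?_
      have := hB3 f f f (T f - Tm)
      have e : (fun ω => |(f ω) ^ 3 * (T f - Tm : Lp ℝ 4 μ) ω|)
          = fun ω => |f ω * f ω * f ω * (T f - Tm : Lp ℝ 4 μ) ω| := by
        funext ω
        congr 1
        ring
      rw [e]
      refine this.trans (le_of_eq ?_)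
      ring
    have hf3 : ‖f‖ ^ 3 ≤ 1 + C0 := by
      rw [← hnf]
      rcases le_or_gt ‖f‖ 1 with h | h
      · have : ‖f‖ ^ 3 ≤ 1 := pow_le_one₀ (norm_nonneg _) h
        have : 0 ≤ ‖f‖ ^ 4 := by positivity
        linarith
      · have : ‖f‖ ^ 3 ≤ ‖f‖ ^ 4 := pow_le_pow_right₀ h.le (by norm_num)
        linarith
    have hVf := hV f
    rw [hnf] at hVf
    have hSn : 0 ≤ ∑ p ∈ g.range, |u p - v p| := Finset.sum_nonneg fun p _ => abs_nonneg _
    have hhol2 : |cub f (T f - Tm)| ≤ (1 + C0) * ((∑ p ∈ g.range, |u p - v p|) * ε) :=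
      hhol.trans (mul_le_mul hf3 hTfn (norm_nonneg _) (by linarith))
    have t1 : |∫ ω, H (g ω) * φ ω ∂μ| ≤ |cub f (T f)| + |cub f (T f - Tm)|
        + |cub f Tm - ∫ ω, H (g ω) * φ ω ∂μ| := by
      have e : (∫ ω, H (g ω) * φ ω ∂μ) = cub f (T f) - cub f (T f - Tm)
          - (cub f Tm - ∫ ω, H (g ω) * φ ω ∂μ) := by
        rw [hlin]
        ring
      calc |∫ ω, H (g ω) * φ ω ∂μ| = |cub f (T f) - cub f (T f - Tm)
          - (cub f Tm - ∫ ω, H (g ω) * φ ω ∂μ)| := by rw [← e]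
        _ ≤ |cub f (T f) - cub f (T f - Tm)| + |cub f Tm - ∫ ω, H (g ω) * φ ω ∂μ| :=
          abs_sub _ _
        _ ≤ _ := by
          have := abs_sub (cub f (T f)) (cub f (T f - Tm))
          linarith
    rw [hD]
    nlinarith [t1, hhol2, hcm, hVf]
  refine le_of_forall_pos_le_add fun δ hδ => ?_
  have := key (δ / (D + 1)) (by positivity)
  have h2 : D * (δ / (D + 1)) ≤ δ := by
    rw [mul_div_assoc', div_le_iff₀ (by positivity)]
    nlinarith
  linarith

end Pool.Agent.Helper66.NI
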