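import Pool.Agent.Helper66.NI.Stmts

open MeasureTheory Filter Topology
open scoped ENNReal

namespace Pool.Agent.Helper66.NI

/-- the three pieces -/
def ten_A (i : Fin 3) : Set ℝ := Set.Ioc (((i : ℕ) : ℝ) / 3) ((((i : ℕ) : ℝ) + 1) / 3)

noncomputable def ten_c (i j : Fin 3) : ℝ := ((j : ℕ) : ℝ) / 3 - ((i : ℕ) : ℝ) / 3

theorem ten_measA (i : Fin 3) : MeasurableSet (ten_A i) := measurableSet_Ioc

theorem ten_mu : mu01 = volume.restrict (Set.Ioc (0 : ℝ) 1) :=
  Measure.restrict_congr_set Ioc_ae_eq_Icc.symm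

theorem ten_sub (i : Fin 3) : ten_A i ⊆ Set.Ioc (0 : ℝ) 1 := by
  intro x hx
  have hi : (((i : ℕ) : ℝ)) ≤ 2 := by exact_mod_cast (by omega : (i : ℕ) ≤ 2)
  have hi0 : (0 : ℝ) ≤ ((i : ℕ) : ℝ) := Nat.cast_nonneg _
  obtain ⟨h1, h2⟩ := hx
  constructor
  · linarith [div_nonneg hi0 (by norm_num : (0 : ℝ) ≤ 3)]
  · linarith

theorem ten_restr (i : Fin 3) : mu01.restrict (ten_A i) = volume.restrict (ten_A i) := by
  rw [ten_mu, Measure.restrict_restrict (ten_measA i)]
  congr 1
  exact Set.inter_eq_left.mpr (ten_sub i)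

theorem ten_mp (i j : Fin 3) : MeasurePreserving (fun x : ℝ => x + ten_c i j)
    (volume.restrict (ten_A i)) (volume.restrict (ten_A j)) := by
  have h := (measurePreserving_add_right (volume : Measure ℝ) (ten_c i j)).restrict_preimage
    (ten_measA j)
  have h2 : (fun x : ℝ => x + ten_c i j) ⁻¹' (ten_A j) = ten_A i := by
    unfold ten_A ten_c
    ext x
    simp only [Set.mem_preimage, Set.mem_Ioc]
    constructor
    · rintro ⟨h1, h2⟩
      constructor <;> linarith
    · rintro ⟨h1, h2⟩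
      constructor <;> linarith
  rw [h2] at h
  exact h

/-- the elementary block -/
noncomputable def ten_r (i j : Fin 3) (f : ℝ → ℝ) : ℝ → ℝ :=
  (ten_A i).indicator (fun x => f (x + ten_c i j))

theorem ten_r_memLp (i j : Fin 3) {f : ℝ → ℝ} (hf : MemLp f 4 mu01) :
    MemLp (ten_r i j f) 4 mu01 := by
  unfold ten_r
  rw [memLp_indicator_iff_restrict (ten_measA i), ten_restr]
  have h1 : MemLp f 4 (volume.restrict (ten_A j)) := by
    rw [← ten_restr]
    exact hf.restrict _
  exact h1.comp_measurePreserving (ten_mp i j)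

theorem ten_r_norm (i j : Fin 3) {f : ℝ → ℝ} (hf : MemLp f 4 mu01) :
    eLpNorm (ten_r i j f) 4 mu01 ≤ eLpNorm f 4 mu01 := by
  unfold ten_r
  rw [eLpNorm_indicator_eq_eLpNorm_restrict (ten_measA i), ten_restr]
  have h1 : MemLp f 4 (volume.restrict (ten_A j)) := by
    rw [← ten_restr]
    exact hf.restrict _
  have h2 := eLpNorm_comp_measurePreserving (p := 4) h1.1 (ten_mp i j)
  have h3 : eLpNorm (fun x => f (x + ten_c i j)) 4 (volume.restrict (ten_A i))
      = eLpNorm f 4 (volume.restrict (ten_A j)) := h2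
  rw [h3, ← ten_restr]
  exact eLpNorm_mono_measure _ Measure.restrict_le_self

theorem ten_r_ae (i j : Fin 3) {f g : ℝ → ℝ} (h : f =ᵐ[mu01] g) :
    ten_r i j f =ᵐ[mu01] ten_r i j g := by
  have h1 : f =ᵐ[volume.restrict (ten_A j)] g := by
    rw [← ten_restr]
    exact ae_restrict_of_ae h
  have h2 := (ten_mp i j).quasiMeasurePreserving.ae_eq_comp h1
  rw [← ten_restr] at h2
  have h3 := (ae_restrict_iff' (ten_measA i)).mp h2
  filter_upwards [h3] with x hx
  unfold ten_r
  by_cases hxA : x ∈ ten_A i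
  · rw [Set.indicator_of_mem hxA, Set.indicator_of_mem hxA]
    exact hx hxA
  · rw [Set.indicator_of_notMem hxA, Set.indicator_of_notMem hxA]

theorem ten_r_add (i j : Fin 3) (f g : ℝ → ℝ) :
    ten_r i j (f + g) = ten_r i j f + ten_r i j g := by
  unfold ten_r
  rw [← Set.indicator_add']
  rfl

theorem ten_r_smul (i j : Fin 3) (c : ℝ) (f : ℝ → ℝ) :
    ten_r i j (c • f) = c • ten_r i j f := by
  funext x
  unfold ten_r
  by_cases hxA : x ∈ ten_A i
  · rw [Pi.smul_apply, Set.indicator_of_mem hxA, Set.indicator_of_mem hxA]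
    rfl
  · rw [Pi.smul_apply, Set.indicator_of_notMem hxA, Set.indicator_of_notMem hxA, smul_zero]

/-- the elementary block as an operator -/
noncomputable def ten_R (i j : Fin 3) : Lp ℝ 4 mu01 →L[ℝ] Lp ℝ 4 mu01 :=
  LinearMap.mkContinuous
    { toFun := fun f => (ten_r_memLp i j (Lp.memLp f)).toLp (ten_r i j f)
      map_add' := by
        intro f g
        rw [← MemLp.toLp_add]
        apply MemLp.toLp_congr
        rw [← ten_r_add]
        exact ten_r_ae i j (Lp.coeFn_add f g)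
      map_smul' := by
        intro c f
        rw [RingHom.id_apply, ← MemLp.toLp_const_smul]
        apply MemLp.toLp_congr
        rw [← ten_r_smul]
        exact ten_r_ae i j (Lp.coeFn_smul c f) }
    1 (by
      intro f
      rw [one_mul]
      change ‖(ten_r_memLp i j (Lp.memLp f)).toLp (ten_r i j f)‖ ≤ ‖f‖
      rw [Lp.norm_toLp, Lp.norm_def]
      exact ENNReal.toReal_mono (Lp.eLpNorm_ne_top f) (ten_r_norm i j (Lp.memLp f)))

theorem ten_R_coe (i j : Fin 3) (f : Lp ℝ 4 mu01) :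
    (ten_R i j f : ℝ → ℝ) =ᵐ[mu01] ten_r i j f := by
  change ((ten_r_memLp i j (Lp.memLp f)).toLp (ten_r i j f) : ℝ → ℝ) =ᵐ[mu01] ten_r i j f
  exact MemLp.coeFn_toLp _

/-- the operator -/
noncomputable def ten_T (M : Matrix (Fin 3) (Fin 3) ℝ) : Lp ℝ 4 mu01 →L[ℝ] Lp ℝ 4 mu01 :=
  ∑ i, ∑ j, M i j • ten_R i j

theorem ten_coe_sum {ι : Type} (s : Finset ι) (F : ι → Lp ℝ 4 mu01) :
    ((∑ i ∈ s, F i : Lp ℝ 4 mu01) : ℝ → ℝ) =ᵐ[mu01] fun x => ∑ i ∈ s, (F i : ℝ → ℝ) x := by
  classical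
  induction s using Finset.induction_on with
  | empty =>
    simp only [Finset.sum_empty]
    exact Lp.coeFn_zero _ _ _
  | insert a s ha ih =>
    rw [Finset.sum_insert ha]
    filter_upwards [Lp.coeFn_add (F a) (∑ i ∈ s, F i), ih] with x hx hx2
    rw [hx, Pi.add_apply, hx2, Finset.sum_insert ha]

theorem ten_T_coe (M : Matrix (Fin 3) (Fin 3) ℝ) (f : Lp ℝ 4 mu01) :
    (ten_T M f : ℝ → ℝ) =ᵐ[mu01] fun x => ∑ i, ∑ j, M i j * ten_r i j f x := by
  have h1 : ten_T M f = ∑ i, ∑ j, M i j • ten_R i j f := by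
    simp [ten_T]
  rw [h1]
  have h2 := ten_coe_sum Finset.univ (fun i => (∑ j, M i j • ten_R i j f : Lp ℝ 4 mu01))
  have h3 := fun i => ten_coe_sum Finset.univ (fun j => (M i j • ten_R i j f : Lp ℝ 4 mu01))
  have h4 : ∀ i j, ((M i j • ten_R i j f : Lp ℝ 4 mu01) : ℝ → ℝ)
      =ᵐ[mu01] fun x => M i j * ten_r i j f x := by
    intro i j
    filter_upwards [Lp.coeFn_smul (M i j) (ten_R i j f), ten_R_coe i j f] with x hx hx2
    rw [hx, Pi.smul_apply, hx2, smul_eq_mul]
  have h3' := ae_all_iff.mpr h3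
  have h4' := ae_all_iff.mpr (fun i => ae_all_iff.mpr (h4 i))
  filter_upwards [h2, h3', h4'] with x hx2 hx3 hx4
  rw [hx2]
  refine Finset.sum_congr rfl fun i _ => ?_
  rw [hx3 i]
  exact Finset.sum_congr rfl fun j _ => hx4 i j

/-- integration over the three pieces -/
theorem ten_int (F : ℝ → ℝ) (hF : Integrable F mu01) :
    (∀ i : Fin 3, IntegrableOn (fun y => F (y + ((i : ℕ) : ℝ) / 3)) (Set.Ioc 0 (1 / 3))) ∧
    (∫ x, F x ∂mu01) = ∫ y in Set.Ioc (0 : ℝ) (1 / 3), ∑ i : Fin 3, F (y + ((i : ℕ) : ℝ) / 3) := by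
  have hA0 : ten_A 0 = Set.Ioc (0 : ℝ) (1 / 3) := by
    unfold ten_A; norm_num
  have hcomp : ∀ i : Fin 3, MeasurePreserving (fun x : ℝ => x + ((i : ℕ) : ℝ) / 3)
      (volume.restrict (Set.Ioc (0 : ℝ) (1 / 3))) (volume.restrict (ten_A i)) := by
    intro i
    have h := ten_mp 0 i
    rw [hA0] at h
    have h2 : ten_c 0 i = ((i : ℕ) : ℝ) / 3 := by unfold ten_c; simp
    rw [h2] at h
    exact h
  have hFi : ∀ i : Fin 3, IntegrableOn F (ten_A i) := by
    intro i
    unfold IntegrableOn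
    rw [← ten_restr]
    exact hF.restrict
  have h1 : ∀ i : Fin 3,
      IntegrableOn (fun y => F (y + ((i : ℕ) : ℝ) / 3)) (Set.Ioc 0 (1 / 3)) := by
    intro i
    exact ((hcomp i).integrable_comp (hFi i).1).mpr (hFi i)
  refine ⟨h1, ?_⟩
  have h2 : ∀ i : Fin 3, (∫ y in Set.Ioc (0 : ℝ) (1 / 3), F (y + ((i : ℕ) : ℝ) / 3))
      = ∫ x in ten_A i, F x := by
    intro i
    have hemb : MeasurableEmbedding (fun x : ℝ => x + ((i : ℕ) : ℝ) / 3) :=
      measurableEmbedding_addRight _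
    exact (hcomp i).integral_comp hemb F
  rw [integral_finsetSum _ (fun i _ => h1 i)]
  simp_rw [h2]
  have hU : Set.Ioc (0 : ℝ) 1 = ⋃ i : Fin 3, ten_A i := by
    ext x
    simp only [Set.mem_iUnion]
    constructor
    · rintro ⟨hx0, hx1⟩
      rcases le_or_gt x (1 / 3) with h | h
      · exact ⟨0, by unfold ten_A; norm_num; constructor <;> linarith⟩
      · rcases le_or_gt x (2 / 3) with h' | h'
        · exact ⟨1, by unfold ten_A; norm_num; constructor <;> linarith⟩
        · exact ⟨2, by unfold ten_A; norm_num; constructor <;> linarith⟩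
    · rintro ⟨i, hi⟩
      exact ten_sub i hi
  rw [ten_mu, hU, integral_iUnion_fintype (fun i => ten_measA i) ?_ hFi]
  intro i j hij
  rw [Function.onFun, Set.disjoint_left]
  intro x hx hy
  unfold ten_A at hx hy
  obtain ⟨a1, a2⟩ := hx
  obtain ⟨b1, b2⟩ := hy
  apply hij
  have e1 : (((i : ℕ) : ℝ)) < ((j : ℕ) : ℝ) + 1 := by linarith
  have e2 : (((j : ℕ) : ℝ)) < ((i : ℕ) : ℝ) + 1 := by linarith
  have e1' : (i : ℕ) < (j : ℕ) + 1 := by exact_mod_cast e1
  have e2' : (j : ℕ) < (i : ℕ) + 1 := by exact_mod_cast e2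
  exact Fin.ext (by omega)

theorem ten_r_eval (i j k : Fin 3) (f : ℝ → ℝ) {y : ℝ} (hy : y ∈ Set.Ioc (0 : ℝ) (1 / 3)) :
    ten_r i j f (y + ((k : ℕ) : ℝ) / 3) = if i = k then f (y + ((j : ℕ) : ℝ) / 3) else 0 := by
  obtain ⟨hy0, hy1⟩ := hy
  unfold ten_r
  split_ifs with h
  · subst h
    rw [Set.indicator_of_mem]
    · congr 1
      unfold ten_c
      ring
    · unfold ten_A
      constructor <;> linarith
  · rw [Set.indicator_of_notMem]
    unfold ten_A
    rintro ⟨a1, a2⟩
    apply h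
    have e1 : (((i : ℕ) : ℝ)) < ((k : ℕ) : ℝ) + 1 := by linarith
    have e2 : (((k : ℕ) : ℝ)) < ((i : ℕ) : ℝ) + 1 := by linarith
    have e1' : (i : ℕ) < (k : ℕ) + 1 := by exact_mod_cast e1
    have e2' : (k : ℕ) < (i : ℕ) + 1 := by exact_mod_cast e2
    exact Fin.ext (by omega)

theorem ten_G_eval (M : Matrix (Fin 3) (Fin 3) ℝ) (k : Fin 3) (f : ℝ → ℝ) {y : ℝ}
    (hy : y ∈ Set.Ioc (0 : ℝ) (1 / 3)) :
    (∑ i, ∑ j, M i j * ten_r i j f (y + ((k : ℕ) : ℝ) / 3))
      = (M.mulVec (fun j => f (y + ((j : ℕ) : ℝ) / 3))) k := by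
  simp only [ten_r_eval _ _ _ f hy, Matrix.mulVec, dotProduct]
  rw [Finset.sum_eq_single k]
  · simp
  · intro i _ hik
    simp [hik]
  · simp

theorem st_TEN (hB : ST_BAS) : ST_TEN := by
  intro M
  obtain ⟨hB1, hB2, -⟩ := hB ℝ mu01
  refine ⟨ten_T M, ?_, ?_⟩
  · intro c hc f
    -- the fourth power
    have hf4 : Integrable (fun x => (f x) ^ 4) mu01 := by
      have := hB1 f f f f
      refine this.congr (Eventually.of_forall fun x => ?_)
      simp only
      ring
    have hfT : Integrable (fun x => (f x) ^ 3 * (ten_T M f) x) mu01 := by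
      have := hB1 f f f (ten_T M f)
      refine this.congr (Eventually.of_forall fun x => ?_)
      simp only
      ring
    have hae : (fun x => (f x) ^ 3 * (ten_T M f) x) =ᵐ[mu01]
        fun x => (f x) ^ 3 * ∑ i, ∑ j, M i j * ten_r i j f x := by
      filter_upwards [ten_T_coe M f] with x hx
      rw [hx]
    have hG : Integrable (fun x => (f x) ^ 3 * ∑ i, ∑ j, M i j * ten_r i j f x) mu01 :=
      hfT.congr hae
    obtain ⟨hi4, he4⟩ := ten_int _ hf4
    obtain ⟨hiG, heG⟩ := ten_int _ hG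
    have hcub : cub f (ten_T M f) = ∫ y in Set.Ioc (0 : ℝ) (1 / 3),
        ∑ i : Fin 3, (f (y + ((i : ℕ) : ℝ) / 3)) ^ 3
          * (M.mulVec (fun j => f (y + ((j : ℕ) : ℝ) / 3))) i := by
      unfold cub
      rw [integral_congr_ae hae, heG]
      refine setIntegral_congr_fun measurableSet_Ioc fun y hy => ?_
      refine Finset.sum_congr rfl fun i _ => ?_
      rw [ten_G_eval M i f hy]
    rw [hcub, hB2 f, he4, ← integral_const_mul]
    refine abs_integral_le_integral_abs.trans ?_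
    refine integral_mono_of_nonneg (Eventually.of_forall fun y => abs_nonneg _) ?_
      (Eventually.of_forall fun y => ?_)
    · exact (integrable_finsetSum _ fun i _ => hi4 i).const_mul c
    · exact hc (fun j => f (y + ((j : ℕ) : ℝ) / 3))
  · intro x
    -- the step function
    let s : ℝ → ℝ := fun y => ∑ j : Fin 3, (ten_A j).indicator (fun _ => x j) y
    have hs : MemLp s 4 mu01 := by
      apply memLp_finsetSum
      intro j _
      exact (memLp_const (x j)).indicator (ten_measA j)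
    have hseval : ∀ (k : Fin 3) (y : ℝ), y ∈ Set.Ioc (0 : ℝ) (1 / 3) →
        s (y + ((k : ℕ) : ℝ) / 3) = x k := by
      intro k y hy
      have : ∀ j : Fin 3, (ten_A j).indicator (fun _ => x j) (y + ((k : ℕ) : ℝ) / 3)
          = if j = k then x j else 0 := by
        intro j
        exact ten_r_eval j j k (fun _ => x j) hy
      change (∑ j : Fin 3, (ten_A j).indicator (fun _ => x j) (y + ((k : ℕ) : ℝ) / 3)) = x k
      simp only [this]
      simp
    let f : Lp ℝ 4 mu01 := hs.toLp s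
    have hfs : (f : ℝ → ℝ) =ᵐ[mu01] s := MemLp.coeFn_toLp hs
    have hTf : (ten_T M f : ℝ → ℝ) =ᵐ[mu01] fun y => ∑ i, ∑ j, M i j * ten_r i j s y := by
      have h4' := ae_all_iff.mpr (fun i => ae_all_iff.mpr (fun j => ten_r_ae i j hfs))
      filter_upwards [ten_T_coe M f, h4'] with y hy hy2
      rw [hy]
      refine Finset.sum_congr rfl fun i _ => Finset.sum_congr rfl fun j _ => ?_
      rw [hy2 i j]
    have hint4 : ∀ g : Lp ℝ 4 mu01, Integrable (fun x => (g x) ^ 4) mu01 := by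
      intro g
      have := hB1 g g g g
      refine this.congr (Eventually.of_forall fun x => ?_)
      simp only
      ring
    have hvol : (∫ y in Set.Ioc (0 : ℝ) (1 / 3), (1 : ℝ)) = 1 / 3 := by
      simp
    have hnf : ‖f‖ ^ 4 = 1 / 3 * ∑ i, x i ^ 4 := by
      have hae : (fun y => (f y) ^ 4) =ᵐ[mu01] fun y => (s y) ^ 4 := by
        filter_upwards [hfs] with y hy
        rw [hy]
      rw [hB2 f, integral_congr_ae hae, (ten_int _ ((hint4 f).congr hae)).2]
      rw [setIntegral_congr_fun (g := fun _ => (∑ i, x i ^ 4) * 1) measurableSet_Ioc,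
        integral_const_mul, hvol, mul_comm]
      intro y hy
      simp only [mul_one]
      refine Finset.sum_congr rfl fun i _ => ?_
      rw [hseval i y hy]
    have hnTf : ‖ten_T M f‖ ^ 4 = 1 / 3 * ∑ i, (M.mulVec x) i ^ 4 := by
      have hae : (fun y => ((ten_T M f) y) ^ 4) =ᵐ[mu01]
          fun y => (∑ i, ∑ j, M i j * ten_r i j s y) ^ 4 := by
        filter_upwards [hTf] with y hy
        rw [hy]
      rw [hB2 (ten_T M f), integral_congr_ae hae, (ten_int _ ((hint4 _).congr hae)).2]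
      rw [setIntegral_congr_fun (g := fun _ => (∑ i, (M.mulVec x) i ^ 4) * 1) measurableSet_Ioc,
        integral_const_mul, hvol, mul_comm]
      intro y hy
      simp only [mul_one]
      refine Finset.sum_congr rfl fun i _ => ?_
      rw [ten_G_eval M i s hy]
      have : (fun j : Fin 3 => s (y + ((j : ℕ) : ℝ) / 3)) = x := by
        funext j
        exact hseval j y hy
      rw [this]
    have hle : ‖ten_T M f‖ ^ 4 ≤ (‖ten_T M‖ * ‖f‖) ^ 4 :=
      pow_le_pow_left₀ (norm_nonneg _) ((ten_T M).le_opNorm f) 4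
    rw [mul_pow, hnf, hnTf] at hle
    nlinarith [hle]

end Pool.Agent.Helper66.NI
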